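import Pool.Agent.H92.FX3

open Matrix Complex
open scoped ComplexOrder Kronecker

namespace Pool.Agent.Results.MP_c7d282_an.NoExt
open Pool.Agent.H92.FX

/-- `g`-tuples of complex `n × n` matrices -/
abbrev Tup (g n : ℕ) := Fin g → Matrix (Fin n) (Fin n) ℂ

/-- graded sets (only the levels `n ≥ 1` matter) -/
abbrev GSet (g : ℕ) := (n : ℕ) → Set (Tup g n)

/-- `X = ∑ Vᵢ* Yᵢ Vᵢ` with `∑ Vᵢ* Vᵢ = 1` -/
def IsComb {g n : ℕ} {ι : Type} [Fintype ι] (X : Tup g n) (k : ι → ℕ) (Y : ∀ i, Tup g (k i))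
    (V : ∀ i, Matrix (Fin (k i)) (Fin n) ℂ) : Prop :=
  (∀ i, 1 ≤ k i) ∧ ∑ i, (V i)ᴴ * V i = 1 ∧ ∀ j, X j = ∑ i, (V i)ᴴ * Y i j * V i

/-- all matrix convex combinations of elements of `S` -/
def mconv {g : ℕ} (S : GSet g) : GSet g := fun n =>
  {X | ∃ (ι : Type) (_ : Fintype ι) (k : ι → ℕ) (Y : ∀ i, Tup g (k i))
    (V : ∀ i, Matrix (Fin (k i)) (Fin n) ℂ), (∀ i, Y i ∈ S (k i)) ∧ IsComb X k Y V}

/-- free extreme points -/
def freeExt {g : ℕ} (K : GSet g) : GSet g := fun n =>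
  {X | X ∈ K n ∧ ∀ (ι : Type) (_ : Fintype ι) (k : ι → ℕ) (Y : ∀ i, Tup g (k i))
    (V : ∀ i, Matrix (Fin (k i)) (Fin n) ℂ), (∀ i, Y i ∈ K (k i)) → IsComb X k Y V → (∀ i, V i ≠ 0) →
      ∀ i, (k i = n ∧ ∃ U : Matrix (Fin (k i)) (Fin n) ℂ, Uᴴ * U = 1 ∧ U * Uᴴ = 1 ∧
          ∀ j, Y i j = U * X j * Uᴴ) ∨
        (n < k i ∧ ∃ l, 1 ≤ l ∧ ∃ Z ∈ K l, ∃ U : Matrix (Fin (k i)) (Fin n ⊕ Fin l) ℂ,
          Uᴴ * U = 1 ∧ U * Uᴴ = 1 ∧ ∀ j, Y i j = U * fromBlocks (X j) 0 0 (Z j) * Uᴴ)}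

/-- projection onto the first `h` coordinates -/
def proj {g h : ℕ} (hh : h < g) (K : GSet g) : GSet h := fun n =>
  {X | ∃ Y ∈ K n, ∀ j, X j = Y (Fin.castLE hh.le j)}

def KK : GSet 9 := fun _ => {X | InK X}

theorem mconv_trans {g : ℕ} (S : GSet g) {n : ℕ} {ι : Type} [Fintype ι] (X : Tup g n) (k : ι → ℕ)
    (Y : ∀ i, Tup g (k i)) (V : ∀ i, Matrix (Fin (k i)) (Fin n) ℂ) (hY : ∀ i, Y i ∈ mconv S (k i))
    (h : IsComb X k Y V) : X ∈ mconv S n := by
  choose κ fκ k' Y' V' h1 h2 using hY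
  refine ⟨Σ i, κ i, inferInstance, fun x => k' x.1 x.2, fun x => Y' x.1 x.2, fun x => V' x.1 x.2 * V x.1,
    fun x => h1 _ _, fun x => (h2 _).1 _, ?_, ?_⟩
  · rw [Fintype.sum_sigma, ← h.2.1]
    refine Finset.sum_congr rfl fun i _ => ?_
    have := congrArg (fun B => (V i)ᴴ * B * V i) (h2 i).2.1
    simp only [Matrix.mul_sum, Matrix.sum_mul, Matrix.mul_one] at this
    rw [← this]; simp only [conjTranspose_mul, Matrix.mul_assoc]
  · intro j
    rw [Fintype.sum_sigma, h.2.2 j]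
    refine Finset.sum_congr rfl fun i _ => ?_
    rw [(h2 i).2.2 j]
    simp only [Matrix.mul_sum, Matrix.sum_mul, conjTranspose_mul, Matrix.mul_assoc]

theorem compress_in {m k : ℕ} (Y : Tup 9 m) (hY : InK Y) (V : Matrix (Fin m) (Fin k) ℂ) (hV : Vᴴ * V = 1) :
    InK (fun j => Vᴴ * Y j * V) :=
  comb_in (ι := Unit) (fun _ => m) (fun _ => Y) (fun _ => V) (fun _ => hY) (by simpa using hV) _ (by simp)

theorem irr_ext {n : ℕ} (hn : 1 ≤ n) (X : Tup 9 n) (h : ∀ j, (X j).IsHermitian) (hU : T X * T X = 1)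
    (hirr : ∀ H : Matrix (Fin n) (Fin n) ℂ, H.IsHermitian → (∀ j, X j * H = H * X j) → ∃ c : ℂ, H = c • 1) :
    X ∈ freeExt KK n := by
  refine ⟨sym_in X h hU, fun ι _ k Y V hY hc hV i => ?_⟩
  have hi := intertwine k Y V hY hc.2.1 X hc.2.2 (T_herm X h) hU i
  have hi' : ∀ j, (V i)ᴴ * Y i j = X j * (V i)ᴴ := by
    intro j
    have := congrArg conjTranspose (hi j)
    simpa only [conjTranspose_mul, (h j).eq, ((hY i).1 j).eq] using this
  obtain ⟨c, hc'⟩ := hirr ((V i)ᴴ * V i) (isHermitian_conjTranspose_mul_self _) (by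
    intro j; rw [← Matrix.mul_assoc, ← hi', Matrix.mul_assoc, hi, Matrix.mul_assoc])
  have hc0 : c ≠ 0 := by
    rintro rfl
    rw [zero_smul] at hc'
    exact hV i (conjTranspose_mul_self_eq_zero.1 hc')
  have hcn : 0 ≤ c := by
    have := (posSemidef_conjTranspose_mul_self (V i)).diag_nonneg (i := ⟨0, hn⟩)
    rw [hc'] at this; simpa using this
  obtain ⟨r, hr, rfl⟩ : ∃ r : ℝ, 0 < r ∧ c = r := by
    refine ⟨c.re, lt_of_le_of_ne (Complex.nonneg_iff.1 hcn).1 ?_, ?_⟩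
    · intro h0; apply hc0; exact Complex.ext h0.symm (Complex.nonneg_iff.1 hcn).2.symm
    · exact Complex.ext rfl (by simpa using (Complex.nonneg_iff.1 hcn).2.symm)
  set W : Matrix (Fin (k i)) (Fin n) ℂ := (((Real.sqrt r)⁻¹ : ℝ) : ℂ) • V i with hW
  have w1 : Wᴴ * W = 1 := by
    rw [hW, conjTranspose_smul, Matrix.smul_mul, Matrix.mul_smul, hc', smul_smul, smul_smul, star_def, conj_ofReal,
      ← ofReal_mul, ← ofReal_mul, ← mul_inv, Real.mul_self_sqrt hr.le, inv_mul_cancel₀ hr.ne']; simp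
  have w2 : ∀ j, Y i j * W = W * X j := by
    intro j; rw [hW, Matrix.mul_smul, Matrix.smul_mul, hi]
  have w3 : ∀ j, Wᴴ * Y i j = X j * Wᴴ := by
    intro j; rw [hW, conjTranspose_smul, Matrix.mul_smul, Matrix.smul_mul, hi']
  obtain ⟨l, E, e1, e2⟩ := proj_range (1 - W * Wᴴ) (by simp [conjTranspose_mul]) (by
    simp only [Matrix.mul_sub, Matrix.sub_mul, Matrix.mul_one, Matrix.one_mul, Matrix.mul_assoc,
      asc_one _ _ w1]; abel)
  have hsz : k i = n + l := by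
    have a1 := trace_size E e1
    rw [e2, trace_sub, trace_size W w1, Matrix.trace_one] at a1
    simp only [Fintype.card_fin] at a1
    have : (k i : ℂ) = n + l := by rw [← a1]; ring
    exact_mod_cast this
  have e3 : W * Wᴴ + E * Eᴴ = 1 := by rw [e2]; abel
  have e4 : Wᴴ * E = 0 := by
    calc Wᴴ * E = Wᴴ * (E * Eᴴ) * E := by rw [Matrix.mul_assoc, Matrix.mul_assoc, e1, Matrix.mul_one]
      _ = 0 := by rw [e2, Matrix.mul_sub, Matrix.mul_one, asc_one _ _ w1, sub_self, Matrix.zero_mul]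
  have e5 : Eᴴ * W = 0 := by rw [← conjTranspose_conjTranspose W, ← conjTranspose_mul, e4, conjTranspose_zero]
  rcases Nat.eq_zero_or_pos l with rfl | hl
  · left
    have : W * Wᴴ = 1 := by
      rw [← e3]; ext a b; simp [Matrix.mul_apply]
    refine ⟨hsz, W, w1, this, fun j => ?_⟩
    rw [← w2, Matrix.mul_assoc, this, Matrix.mul_one]
  · right
    refine ⟨by omega, l, hl, fun j => Eᴴ * Y i j * E, compress_in _ (hY i) E e1, fromCols W E, ?_, ?_, ?_⟩
    · rw [conjTranspose_fromCols_eq_fromRows_conjTranspose, fromRows_mul_fromCols, w1, e1, e4, e5, fromBlocks_one]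
    · rw [conjTranspose_fromCols_eq_fromRows_conjTranspose, fromCols_mul_fromRows, e3]
    · intro j
      rw [conjTranspose_fromCols_eq_fromRows_conjTranspose, fromCols_mul_fromBlocks, fromCols_mul_fromRows]
      simp only [Matrix.mul_zero, add_zero, zero_add]
      have b1 : E * (Eᴴ * Y i j * E) * Eᴴ = (E * Eᴴ) * Y i j * (E * Eᴴ) := by simp only [Matrix.mul_assoc]
      have b2 : W * Wᴴ * Y i j = W * X j * Wᴴ := by rw [Matrix.mul_assoc, w3, Matrix.mul_assoc]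
      have b3 : Y i j * (W * Wᴴ) = W * X j * Wᴴ := by rw [← Matrix.mul_assoc, w2]
      have b4 : W * X j * Wᴴ * (W * Wᴴ) = W * X j * Wᴴ := by
        simp only [Matrix.mul_assoc, asc_one _ _ w1]
      rw [b1, e2, Matrix.sub_mul, Matrix.one_mul, b2, Matrix.mul_sub, Matrix.mul_one, Matrix.sub_mul, b3, b4]
      abel

theorem self_mem {g : ℕ} (S : GSet g) {n : ℕ} (hn : 1 ≤ n) (X : Tup g n) (h : X ∈ S n) : X ∈ mconv S n :=
  ⟨Unit, inferInstance, fun _ => n, fun _ => X, fun _ => 1, fun _ => h, fun _ => hn, by simp, by simp⟩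

theorem sym_mem (n : ℕ) : 1 ≤ n → ∀ X : Tup 9 n, (∀ j, (X j).IsHermitian) → T X * T X = 1 →
    X ∈ mconv (freeExt KK) n := by
  induction n using Nat.strong_induction_on with
  | _ n ih =>
  intro hn X h hU
  by_cases hirr : ∀ H : Matrix (Fin n) (Fin n) ℂ, H.IsHermitian → (∀ j, X j * H = H * X j) → ∃ c : ℂ, H = c • 1
  · exact self_mem _ hn X (irr_ext hn X h hU hirr)
  push Not at hirr
  obtain ⟨H, hH, hc, hs⟩ := hirr
  obtain ⟨P, p1, p2, p3, p4, p5⟩ := eigproj H hH hn hs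
  let Q : Bool → Matrix (Fin n) (Fin n) ℂ := fun b => if b then P else 1 - P
  have q1 : ∀ b, (Q b)ᴴ = Q b := by intro b; cases b <;> simp [Q, p1]
  have q2 : ∀ b, Q b * Q b = Q b := by intro b; cases b <;> simp [Q, p2, Matrix.mul_sub, Matrix.sub_mul]
  have q3 : ∀ b, Q b ≠ 0 := by
    intro b; cases b
    · simpa [Q, sub_eq_zero] using p4.symm
    · simpa [Q] using p3
  have q4 : ∀ b j, X j * Q b = Q b * X j := by
    intro b j; cases b <;> simp [Q, p5 _ (hc j), Matrix.mul_sub, Matrix.sub_mul]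
  have q5 : ∑ b, Q b = 1 := by simp [Q]
  choose k E e1 e2 using fun b => proj_range (Q b) (q1 b) (q2 b)
  have k1 : ∀ b, 1 ≤ k b := by
    intro b
    by_contra hk
    apply q3 b
    rw [← e2]; ext a c
    have : IsEmpty (Fin (k b)) := ⟨fun x => by have := x.2; omega⟩
    simp [Matrix.mul_apply]
  have k2 : k true + k false = n := by
    have a := congrArg Matrix.trace q5
    rw [trace_sum, Matrix.trace_one] at a
    simp only [← e2, trace_size _ (e1 _), Fintype.card_fin, Fintype.sum_bool] at a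
    exact_mod_cast a
  have k3 : ∀ b, k b < n := by
    intro b; have := k1 true; have := k1 false; cases b <;> omega
  refine mconv_trans _ X k (fun b j => (E b)ᴴ * X j * E b) (fun b => (E b)ᴴ) (fun b => ih _ (k3 b) (k1 b) _ ?_ ?_)
    ⟨k1, ?_, ?_⟩
  · intro j; exact isHermitian_conjTranspose_mul_mul _ (h j)
  · have a1 : D (Q b) * T X = T X * D (Q b) := by rw [D_T, T_D]; simp only [q4]
    rw [T_conj]
    calc _ = (D (E b))ᴴ * (T X * (D (E b) * (D (E b))ᴴ)) * T X * D (E b) := by simp only [Matrix.mul_assoc]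
      _ = (D (E b))ᴴ * D (Q b) * (T X * T X) * D (E b) := by
        rw [D_H, D_mul, e2, ← a1]; simp only [Matrix.mul_assoc]
      _ = 1 := by
        rw [hU, Matrix.mul_one, D_H, D_mul, D_mul, ← e2, ← Matrix.mul_assoc, e1, Matrix.one_mul, e1, D_one]
  · simp only [conjTranspose_conjTranspose, e2, q5]
  · intro j
    have : ∀ b, (E b)ᴴᴴ * ((E b)ᴴ * X j * E b) * (E b)ᴴ = Q b * X j := by
      intro b
      calc _ = (E b * (E b)ᴴ) * (X j * (E b * (E b)ᴴ)) := by simp only [conjTranspose_conjTranspose, Matrix.mul_assoc]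
        _ = _ := by rw [e2, q4, ← Matrix.mul_assoc, q2]
    simp only [this]; rw [← Matrix.sum_mul, q5, Matrix.one_mul]

theorem all_mem {n : ℕ} (hn : 1 ≤ n) (X : Tup 9 n) (h : InK X) : X ∈ mconv (freeExt KK) n := by
  obtain ⟨w, S, h0, h1, h2, h3⟩ := conv_sym (T X) (T_herm X h.1) h.2.1 h.2.2
  have hs : ∀ e, star ((Real.sqrt (w e) : ℝ) : ℂ) * ((Real.sqrt (w e) : ℝ) : ℂ) = w e := by
    intro e; rw [star_def, conj_ofReal, ← ofReal_mul, Real.mul_self_sqrt (h0 e)]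
  refine mconv_trans _ X (fun _ => n) (fun e => G (S e)) (fun e => ((Real.sqrt (w e) : ℝ) : ℂ) • 1)
    (fun e => sym_mem n hn _ (G_herm _ (h2 e).1) (by rw [TG, (h2 e).2])) ⟨fun _ => hn, ?_, ?_⟩
  · simp only [conjTranspose_smul, conjTranspose_one, Matrix.smul_mul, Matrix.mul_smul, Matrix.one_mul, smul_smul, hs,
      mul_comm ((Real.sqrt (w _) : ℝ) : ℂ)]
    rw [← Finset.sum_smul, ← ofReal_sum, h1]; simp
  · have : X = fun j => ∑ e, (w e : ℂ) • G (S e) j := by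
      apply T_inj; rw [T_sum, h3]; simp only [T_smul, TG]
    intro j
    simp only [conjTranspose_smul, conjTranspose_one, Matrix.smul_mul, Matrix.mul_smul, Matrix.one_mul,
      Matrix.mul_one, smul_smul, hs, mul_comm ((Real.sqrt (w _) : ℝ) : ℂ)]
    exact congrFun this j

theorem no_ext {n : ℕ} (hn : 1 ≤ n) : freeExt (proj (by norm_num : 4 < 9) KK) n = ∅ := by
  ext X
  simp only [Set.mem_empty_iff_false, iff_false]
  rintro ⟨⟨X', hX', e⟩, hE⟩
  obtain ⟨Y, V, f, y1, v1, v2, y2, y3, y4⟩ := dilate hn X' hX'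
  have y5 : ∀ j : Fin 4, Vᴴ * Y (Fin.castLE (by norm_num) j) * V = X j := by
    intro j; rw [y2, e j]; simp [X0]
  have := hE Unit inferInstance (fun _ => n + 1) (fun _ j => Y (Fin.castLE (by norm_num) j)) (fun _ => V)
    (fun _ => ⟨Y, y1, fun _ => rfl⟩) ⟨fun _ => Nat.le_add_left 1 n, by simpa using v1, fun j => by simp [y5]⟩ (by
      intro _ h0
      rw [h0] at v1
      simpa using congrFun (congrFun v1 ⟨0, hn⟩) ⟨0, hn⟩) ()
  rcases this with ⟨h1, -⟩ | ⟨-, l, -, Z, -, U, u1, u2, u3⟩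
  · simp at h1
  · exact y4 ⟨trace_lem (Y 0) (y1.1 0).eq V f v2 (X 0) (y5 0) (y3 0) (Z 0) U u1 u2 (u3 0),
      trace_lem (Y 2) (y1.1 2).eq V f v2 (X 2) (y5 2) (y3 2) (Z 2) U u1 u2 (u3 2)⟩

theorem result : ∃ (g h : ℕ) (hh : h < g) (K : GSet g),
    (∀ n, ∀ X ∈ K n, ∀ j, (X j).IsHermitian) ∧
    (∀ n, IsClosed (K n)) ∧
    (∀ n, ∃ C : ℝ, ∀ X ∈ K n, ∀ j p q, ‖X j p q‖ ≤ C) ∧
    (∀ n, 1 ≤ n → mconv K n ⊆ K n) ∧
    (∀ n, 1 ≤ n → K n = mconv (freeExt K) n) ∧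
    (∀ n, 1 ≤ n → (proj hh K n).Nonempty ∧ freeExt (proj hh K) n = ∅ ∧
      mconv (freeExt (proj hh K)) n = ∅) := by
  have hc : ∀ n, mconv KK n ⊆ KK n := by
    rintro n X ⟨ι, _, k, Y, V, hY, hC⟩
    exact comb_in k Y V hY hC.2.1 X hC.2.2
  refine ⟨9, 4, by norm_num, KK, fun n X hX => hX.1, fun n => K_closed, fun n => ⟨1, fun X hX => K_bdd X hX⟩,
    fun n _ => hc n, fun n hn => ?_, fun n hn => ⟨?_, no_ext hn, ?_⟩⟩
  · refine Set.Subset.antisymm (fun X hX => all_mem hn X hX) ?_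
    rintro X ⟨ι, _, k, Y, V, hY, hC⟩
    exact hc n ⟨ι, _, k, Y, V, fun i => (hY i).1, hC⟩
  · refine ⟨fun _ => 0, fun _ => 0, ⟨fun _ => isHermitian_zero, ?_, ?_⟩, fun _ => rfl⟩ <;>
      simpa [T] using PosSemidef.one
  · ext X
    simp only [Set.mem_empty_iff_false, iff_false]
    rintro ⟨ι, _, k, Y, V, hY, hC⟩
    have : IsEmpty ι := ⟨fun i => by have := hY i; rw [no_ext (hC.1 i)] at this; exact this⟩
    simpa using congrFun (congrFun hC.2.1 ⟨0, hn⟩) ⟨0, hn⟩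

end Pool.Agent.Results.MP_c7d282_an.NoExt
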